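import Mathlib
import Pool.Agent.Results.MP_9a6b8c_lc.Contiguous

set_option autoImplicit false

/-!
# Semirecursive sets in every Turing degree
-/

namespace Pool.Agent.Y626.CT

open Pool.Agent.Results.MP_9a6b8c_lc.Contiguous
open Pool.Agent.Helper446 Pool.Agent.Helper446.RE
open scoped Computability

/-- The characteristic function of a set, as a total partial function. -/
noncomputable def chi (A : Set ℕ) : ℕ →. ℕ :=
  haveI := Classical.decPred fun n => n ∈ A
  fun n => Part.some (if n ∈ A then 1 else 0)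

/-- The numerical version. -/
noncomputable def ch (A : Set ℕ) (n : ℕ) : ℕ :=
  haveI := Classical.decPred fun n => n ∈ A
  if n ∈ A then 1 else 0

theorem chi_eq (A : Set ℕ) : chi A = fun n => Part.some (ch A n) := rfl

theorem ch_of_mem {A : Set ℕ} {n : ℕ} (h : n ∈ A) : ch A n = 1 := by
  unfold ch; simp [h]

theorem ch_of_notMem {A : Set ℕ} {n : ℕ} (h : n ∉ A) : ch A n = 0 := by
  unfold ch; simp [h]

theorem ch_le (A : Set ℕ) (n : ℕ) : ch A n ≤ 1 := by
  by_cases h : n ∈ A
  · rw [ch_of_mem h]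
  · rw [ch_of_notMem h]; exact Nat.zero_le _

/-- Total functions that are recursive in `O`. -/
def TR (O : Set (ℕ →. ℕ)) (f : ℕ → ℕ) : Prop := Nat.RecursiveIn O fun n => Part.some (f n)

theorem TR.of_computable {O : Set (ℕ →. ℕ)} {f : ℕ → ℕ} (hf : Computable f) : TR O f := by
  have h : Nat.Partrec fun n => Part.some (f n) := Partrec.nat_iff.1 hf
  exact h.recursiveIn

theorem TR.comp {O : Set (ℕ →. ℕ)} {f g : ℕ → ℕ} (hf : TR O f) (hg : TR O g) :
    TR O fun n => f (g n) := by
  refine Nat.RecursiveIn.of_eq (Nat.RecursiveIn.comp hf hg) fun n => ?_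
  simp

theorem TR.pair {O : Set (ℕ →. ℕ)} {f g : ℕ → ℕ} (hf : TR O f) (hg : TR O g) :
    TR O fun n => Nat.pair (f n) (g n) := by
  refine Nat.RecursiveIn.of_eq (Nat.RecursiveIn.pair hf hg) fun n => ?_
  simp [Seq.seq]

theorem TR.prec {O : Set (ℕ →. ℕ)} {a : ℕ → ℕ} {h : ℕ → ℕ} (hh : TR O h) (h0 : a 0 = 0)
    (hs : ∀ n, a (n + 1) = h (Nat.pair n (a n))) : TR O a := by
  have h2 : Nat.RecursiveIn O (fun n => Part.some (h n.unpair.2)) :=
    TR.comp (f := h) hh (TR.of_computable (Computable.snd.comp Computable.unpair))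
  have h1 := Nat.RecursiveIn.prec (O := O) (f := fun _ => Part.some 0) Nat.RecursiveIn.zero h2
  have h3 : TR O fun n => Nat.pair 0 n := TR.of_computable
    (Primrec₂.natPair.to_comp.comp (Computable.const 0) Computable.id)
  refine Nat.RecursiveIn.of_eq (Nat.RecursiveIn.comp h1 h3) fun n => ?_
  simp only [Part.bind_eq_bind, Part.bind_some, Nat.unpair_pair]
  induction n with
  | zero => simp [h0]
  | succ n ih =>
    rw [hs]
    simp only
    rw [ih]
    simp

variable (A : Set ℕ)

/-- The number with the binary digits `A(0), ..., A(n-1)`. -/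
noncomputable def pre : ℕ → ℕ
  | 0 => 0
  | n + 1 => 2 * pre n + ch A n

/-- The binary words (pairs of a length and a number) to the left of `A`. -/
def lc : Set ℕ := {p | p.unpair.2 < pre A p.unpair.1}

theorem TR_pre (O : Set (ℕ →. ℕ)) (h : TR O (ch A)) : TR O (pre A) := by
  refine TR.prec (h := fun p => 2 * p.unpair.2 + ch A p.unpair.1) ?_ rfl fun n => ?_
  · have h1 : TR O fun p => Nat.pair (2 * p.unpair.2) (ch A p.unpair.1) :=
      TR.pair (TR.of_computable (by fun_prop)) (h.comp (TR.of_computable (by fun_prop)))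
    have h2 : TR O fun p : ℕ => p.unpair.1 + p.unpair.2 := TR.of_computable (by fun_prop)
    have h3 := h2.comp h1
    simpa only [Nat.unpair_pair] using h3
  · simp [pre]

theorem ch_lc (p : ℕ) : ch (lc A) p = if p.unpair.2 < pre A p.unpair.1 then 1 else 0 := by
  by_cases h : p ∈ lc A
  · have h' : p.unpair.2 < pre A p.unpair.1 := h
    rw [ch_of_mem h, if_pos h']
  · have h' : ¬ p.unpair.2 < pre A p.unpair.1 := h
    rw [ch_of_notMem h, if_neg h']

/-- The left cut is recursive in `A`. -/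
theorem TR_lc (O : Set (ℕ →. ℕ)) (h : TR O (ch A)) : TR O (ch (lc A)) := by
  have h1 : TR O fun p => Nat.pair p.unpair.2 (pre A p.unpair.1) :=
    TR.pair (TR.of_computable (by fun_prop)) ((TR_pre A O h).comp (TR.of_computable (by fun_prop)))
  have h2 : TR O fun q : ℕ => if q.unpair.1 < q.unpair.2 then 1 else 0 :=
    TR.of_computable (cite (cp_lt (by fun_prop) (by fun_prop)) (by fun_prop) (by fun_prop))
  have h3 := h2.comp h1
  simp only [Nat.unpair_pair] at h3
  have h4 : ch (lc A) = fun p => if p.unpair.2 < pre A p.unpair.1 then 1 else 0 :=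
    funext (ch_lc A)
  rw [h4]
  exact h3

theorem digit (n : ℕ) : ch (lc A) (Nat.pair (n + 1) (2 * pre A n)) = ch A n := by
  rw [ch_lc]
  simp only [Nat.unpair_pair, pre]
  have := ch_le A n
  split_ifs with h <;> omega

/-- `A` is recursive in its left cut. -/
theorem TR_of_lc (O : Set (ℕ →. ℕ)) (h : TR O (ch (lc A))) : TR O (ch A) := by
  have hq : ∀ f g : ℕ → ℕ, Computable f → TR O g →
      TR O fun p => ch (lc A) (Nat.pair (f p + 1) (2 * g p)) := by
    intro f g hf hg
    refine h.comp (TR.pair (TR.of_computable (by fun_prop)) ?_)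
    exact (TR.of_computable (f := fun x => 2 * x) (by fun_prop)).comp hg
  have hpre : TR O (pre A) := by
    refine TR.prec (h := fun p => 2 * p.unpair.2 +
      ch (lc A) (Nat.pair (p.unpair.1 + 1) (2 * p.unpair.2))) ?_ rfl fun n => ?_
    · have h1 := TR.pair (O := O) (TR.of_computable (f := fun p : ℕ => 2 * p.unpair.2)
        (by fun_prop)) (hq (fun p => p.unpair.1) (fun p => p.unpair.2) (by fun_prop)
          (TR.of_computable (by fun_prop)))
      have h2 : TR O fun p : ℕ => p.unpair.1 + p.unpair.2 := TR.of_computable (by fun_prop)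
      have h3 := h2.comp h1
      simpa only [Nat.unpair_pair] using h3
    · simp only [Nat.unpair_pair]
      rw [digit]
      rfl
  have h5 := hq (fun p => p) (pre A) Computable.id hpre
  have h6 : (fun p => ch (lc A) (Nat.pair (p + 1) (2 * pre A p))) = ch A :=
    funext (digit A)
  rw [h6] at h5
  exact h5

theorem TR_compl (O : Set (ℕ →. ℕ)) {B : Set ℕ} (h : TR O (ch B)) : TR O (ch Bᶜ) := by
  have h1 : TR O fun x : ℕ => 1 - x := TR.of_computable (by fun_prop)
  have h2 : (fun n => 1 - ch B n) = ch Bᶜ := by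
    funext n
    by_cases hn : n ∈ B
    · rw [ch_of_mem hn, ch_of_notMem (by simpa using hn)]
    · rw [ch_of_notMem hn, ch_of_mem (by simpa using hn)]
  have h3 := h1.comp h
  rw [h2] at h3
  exact h3

/-! ### Semirecursiveness -/

theorem pre_div (n m : ℕ) : pre A (n + m) / 2 ^ m = pre A n := by
  induction m with
  | zero => simp
  | succ m ih =>
    rw [← add_assoc, pre, pow_succ', ← Nat.div_div_eq_div_mul]
    have h1 := ch_le A (n + m)
    have h2 : (2 * pre A (n + m) + ch A (n + m)) / 2 = pre A (n + m) := by omega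
    rw [h2, ih]

theorem lc_semirecursive : Semirecursive (lc A) := by
  refine ⟨fun p q =>
    if p.unpair.2 / 2 ^ (p.unpair.1 - min p.unpair.1 q.unpair.1) <
        q.unpair.2 / 2 ^ (q.unpair.1 - min p.unpair.1 q.unpair.1) then p
    else if q.unpair.2 / 2 ^ (q.unpair.1 - min p.unpair.1 q.unpair.1) <
        p.unpair.2 / 2 ^ (p.unpair.1 - min p.unpair.1 q.unpair.1) then q
    else if p.unpair.1 ≤ q.unpair.1 then q else p, ?_, ?_, ?_⟩
  · have hd : ∀ f g : ℕ × ℕ → ℕ, Computable f → Computable g →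
        Computable fun a => f a / 2 ^ g a := fun f g hf hg =>
      Primrec.nat_div.to_comp.comp hf (cpow.comp hg)
    have h1 : Computable fun a : ℕ × ℕ =>
        a.1.unpair.2 / 2 ^ (a.1.unpair.1 - min a.1.unpair.1 a.2.unpair.1) :=
      hd _ _ (by fun_prop) (by fun_prop)
    have h2 : Computable fun a : ℕ × ℕ =>
        a.2.unpair.2 / 2 ^ (a.2.unpair.1 - min a.1.unpair.1 a.2.unpair.1) :=
      hd _ _ (by fun_prop) (by fun_prop)
    refine cite (α := ℕ × ℕ) (cp_lt h1 h2) (by fun_prop) ?_
    refine cite (α := ℕ × ℕ) (cp_lt h2 h1) (by fun_prop) ?_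
    exact cite (α := ℕ × ℕ) (cp_le (by fun_prop) (by fun_prop)) (by fun_prop) (by fun_prop)
  · intro p q
    dsimp only
    split_ifs <;> simp
  · -- correctness
    have key : ∀ p q : ℕ, p.unpair.2 / 2 ^ (p.unpair.1 - min p.unpair.1 q.unpair.1) <
        q.unpair.2 / 2 ^ (q.unpair.1 - min p.unpair.1 q.unpair.1) → q ∈ lc A → p ∈ lc A := by
      intro p q h hq
      set m := min p.unpair.1 q.unpair.1 with hm
      obtain ⟨a, ha⟩ : ∃ a, p.unpair.1 = m + a := ⟨p.unpair.1 - m, by omega⟩
      obtain ⟨b, hb⟩ : ∃ b, q.unpair.1 = m + b := ⟨q.unpair.1 - m, by omega⟩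
      have e1 : p.unpair.1 - m = a := by omega
      have e2 : q.unpair.1 - m = b := by omega
      rw [e1, e2] at h
      have hq' : q.unpair.2 < pre A (m + b) := by rw [← hb]; exact hq
      have h1 : q.unpair.2 / 2 ^ b ≤ pre A m := by
        rw [← pre_div A m b]; exact Nat.div_le_div_right hq'.le
      have h2 : p.unpair.2 / 2 ^ a < pre A (m + a) / 2 ^ a := by
        rw [pre_div]; exact h.trans_le h1
      change p.unpair.2 < pre A p.unpair.1
      rw [ha]
      by_contra hcon
      exact absurd (Nat.div_le_div_right (c := 2 ^ a) (not_lt.1 hcon)) (not_le.2 h2)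
    have key2 : ∀ p q : ℕ, p.unpair.1 ≤ q.unpair.1 →
        p.unpair.2 = q.unpair.2 / 2 ^ (q.unpair.1 - p.unpair.1) → p ∈ lc A → q ∈ lc A := by
      intro p q hle he hp
      obtain ⟨b, hb⟩ : ∃ b, q.unpair.1 = p.unpair.1 + b := ⟨q.unpair.1 - p.unpair.1, by omega⟩
      have e2 : q.unpair.1 - p.unpair.1 = b := by omega
      rw [e2] at he
      have hp' : p.unpair.2 < pre A p.unpair.1 := hp
      rw [he, ← pre_div A p.unpair.1 b] at hp'
      change q.unpair.2 < pre A q.unpair.1
      rw [hb]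
      by_contra hcon
      exact absurd (Nat.div_le_div_right (c := 2 ^ b) (not_lt.1 hcon)) (not_le.2 hp')
    intro p q h
    dsimp only
    split_ifs with h1 h2 h3
    · rcases h with h | h
      · exact h
      · exact key p q h1 h
    · rcases h with h | h
      · refine key q p ?_ h
        rwa [min_comm q.unpair.1]
      · exact h
    · rcases h with h | h
      · refine key2 p q h3 ?_ h
        have e : min p.unpair.1 q.unpair.1 = p.unpair.1 := min_eq_left h3
        rw [e] at h1 h2
        simp only [Nat.sub_self, pow_zero, Nat.div_one] at h1 h2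
        omega
      · exact h
    · rcases h with h | h
      · exact h
      · have h4 : q.unpair.1 ≤ p.unpair.1 := by omega
        refine key2 q p h4 ?_ h
        have e : min p.unpair.1 q.unpair.1 = q.unpair.1 := min_eq_right h4
        rw [e] at h1 h2
        simp only [Nat.sub_self, pow_zero, Nat.div_one] at h1 h2
        omega

theorem semirecursive_compl {B : Set ℕ} (h : Semirecursive B) : Semirecursive Bᶜ := by
  obtain ⟨f, hf, hf1, hf2⟩ := h
  refine ⟨fun a b => if f a b = a then b else a, ?_, ?_, ?_⟩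
  · exact cite (α := ℕ × ℕ) (cp_eq hf (by fun_prop)) (by fun_prop) (by fun_prop)
  · intro a b
    dsimp only
    split_ifs <;> simp
  · intro a b hab
    dsimp only
    split_ifs with h1
    · intro hb
      have h2 := hf2 a b (Or.inr hb)
      rw [h1] at h2
      rcases hab with h | h
      · exact h h2
      · exact h hb
    · intro ha
      have h2 := hf2 a b (Or.inl ha)
      rcases hf1 a b with h3 | h3
      · exact h1 h3
      · rw [h3] at h2
        rcases hab with h | h
        · exact h ha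
        · exact h h2

/-- A set is computable if its characteristic function is. -/
theorem computable_of_ch {A : Set ℕ} (h : Computable (ch A)) : ComputablePred fun n => n ∈ A := by
  have h1 : ComputablePred fun n => ch A n = 1 := cp_eq h (by fun_prop)
  refine h1.of_eq fun n => ?_
  by_cases hn : n ∈ A
  · simp [ch_of_mem hn, hn]
  · simp [ch_of_notMem hn, hn]

theorem ch_computable {A : Set ℕ} (h : ComputablePred fun n => n ∈ A) : Computable (ch A) := by
  classical
  refine (cite (α := ℕ) h (f := fun _ => 1) (g := fun _ => 0) (by fun_prop) (by fun_prop)).of_eq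
    fun n => ?_
  by_cases hn : n ∈ A
  · simp [ch_of_mem hn, hn]
  · simp [ch_of_notMem hn, hn]

/-- Every nonzero Turing degree contains a semirecursive set which is not c.e. -/
theorem exists_in_degree {A : Set ℕ} (hA : ¬ ComputablePred fun n => n ∈ A) :
    ∃ B : Set ℕ, (chi B ≡ᵀ chi A) ∧ Semirecursive B ∧ (¬ REPred fun n => n ∈ B) ∧
      (REPred (fun n => n ∈ lc A) → REPred fun n => n ∉ B) := by
  have hor : ∀ S : Set ℕ, TR {chi S} (ch S) := fun S =>
    Nat.RecursiveIn.oracle _ (Set.mem_singleton _)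
  have htr : ∀ {S S' : Set ℕ}, TR {chi S'} (ch S) → chi S ≤ᵀ chi S' := fun {S S'} h =>
    RecursiveIn.iff_nat.2 h
  by_cases h1 : REPred fun n => n ∈ lc A
  · by_cases h2 : REPred fun n => n ∈ (lc A)ᶜ
    · exfalso
      have h3 : ComputablePred fun n => n ∈ lc A := cp_of_re h1 h2
      have h4 : TR ∅ (ch A) := TR_of_lc A ∅ (TR.of_computable (ch_computable h3))
      have h5 : Partrec fun n => Part.some (ch A n) :=
        recursiveIn_empty_iff.1 (RecursiveIn.iff_nat.2 h4)
      exact hA (computable_of_ch h5)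
    · refine ⟨(lc A)ᶜ, ⟨htr ?_, htr ?_⟩, semirecursive_compl (lc_semirecursive A), h2, fun h => ?_⟩
      · exact TR_compl _ (TR_lc A _ (hor A))
      · refine TR_of_lc A _ ?_
        have := TR_compl _ (hor (lc A)ᶜ)
        rwa [compl_compl] at this
      · exact h.of_eq fun n => by simp
  · exact ⟨lc A, ⟨htr (TR_lc A _ (hor A)), htr (TR_of_lc A _ (hor (lc A)))⟩,
      lc_semirecursive A, h1, fun h => absurd h h1⟩

/-! ### C.e. sets -/

theorem pre_lt (n : ℕ) : pre A n < 2 ^ n := by
  induction n with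
  | zero => simp [pre]
  | succ n ih =>
    have := ch_le A n
    rw [pre, pow_succ]
    omega

theorem le_pre (n : ℕ) : ∀ c : ℕ, c < 2 ^ n →
    (∀ i < n, c / 2 ^ (n - 1 - i) % 2 ≠ 1 ∨ i ∈ A) → c ≤ pre A n := by
  induction n with
  | zero => intro c hc _; simp at hc; simp [hc]
  | succ n ih =>
    intro c hc h
    have h1 : c / 2 ≤ pre A n := by
      refine ih (c / 2) ?_ ?_
      · rw [pow_succ] at hc; omega
      · intro i hi
        have h2 := h i (by omega)
        have e : n + 1 - 1 - i = (n - 1 - i) + 1 := by omega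
        rw [e, pow_succ', ← Nat.div_div_eq_div_mul] at h2
        exact h2
    have h3 := h n (by omega)
    have e : n + 1 - 1 - n = 0 := by omega
    rw [e, pow_zero, Nat.div_one] at h3
    rw [pre]
    rcases h3 with h3 | h3
    · omega
    · rw [ch_of_mem h3]; omega

theorem re_lc {A : Set ℕ} (hA : REPred fun n => n ∈ A) : REPred fun p => p ∈ lc A := by
  have h : ∀ p, p ∈ lc A ↔ ∃ c : ℕ, p.unpair.2 < c ∧ c < 2 ^ p.unpair.1 ∧
      ∀ i < p.unpair.1, c / 2 ^ (p.unpair.1 - 1 - i) % 2 ≠ 1 ∨ i ∈ A := by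
    intro p
    constructor
    · intro hp
      refine ⟨pre A p.unpair.1, hp, pre_lt A _, fun i hi => ?_⟩
      by_cases hiA : i ∈ A
      · exact Or.inr hiA
      · left
        have e : p.unpair.1 = (i + 1) + (p.unpair.1 - 1 - i) := by omega
        have h1 := pre_div A (i + 1) (p.unpair.1 - 1 - i)
        rw [← e] at h1
        rw [h1, pre, ch_of_notMem hiA]
        omega
    · rintro ⟨c, h1, h2, h3⟩
      exact lt_of_lt_of_le h1 (le_pre A _ c h2 h3)
  have hd : ∀ f g : (ℕ × ℕ) × ℕ → ℕ, Computable f → Computable g →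
      Computable fun a => f a / 2 ^ g a % 2 := fun f g hf hg => cdivmod hf hg
  have h1 : REPred fun p : ℕ => ∃ c : ℕ, p.unpair.2 < c ∧ c < 2 ^ p.unpair.1 ∧
      ∀ i < p.unpair.1, c / 2 ^ (p.unpair.1 - 1 - i) % 2 ≠ 1 ∨ i ∈ A := by
    refine RE.ex (p := fun (p c : ℕ) => p.unpair.2 < c ∧ c < 2 ^ p.unpair.1 ∧
      ∀ i < p.unpair.1, c / 2 ^ (p.unpair.1 - 1 - i) % 2 ≠ 1 ∨ i ∈ A) ?_
    refine RE.and (RE.lt (by fun_prop) (by fun_prop)) (RE.and (RE.lt (by fun_prop)
      (cpow.comp (by fun_prop))) ?_)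
    refine RE.all_lt (p := fun (x : ℕ × ℕ) (i : ℕ) =>
      x.2 / 2 ^ (x.1.unpair.1 - 1 - i) % 2 ≠ 1 ∨ i ∈ A) ?_ (by fun_prop)
    refine RE.or (RE.ne (hd _ _ (by fun_prop) (by fun_prop)) (by fun_prop)) ?_
    exact RE.comp hA (by fun_prop)
  exact h1.of_eq fun p => (h p).symm

/-! ### Counting -/

open Cardinal

/-- Only countably many sets are e-reducible to `B`. -/
theorem countable_red (r : Set (Set (ℕ × ℕ))) (hr : ∀ Ψ ∈ r, IsOp Ψ) (B : Set ℕ) :
    {C : Set ℕ | Red r C B}.Countable := by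
  have h : {C : Set ℕ | Red r C B} ⊆ Set.range fun e : ℕ =>
      app {p : ℕ × ℕ | ∃ s, RE.wst (ℕ × ℕ) e s p = true} B := by
    rintro C ⟨Ψ, hΨ, rfl⟩
    obtain ⟨e, he⟩ := RE.wst_univ (p := fun p : ℕ × ℕ => p ∈ Ψ) (hr Ψ hΨ)
    refine ⟨e, ?_⟩
    have h1 : {p : ℕ × ℕ | ∃ s, RE.wst (ℕ × ℕ) e s p = true} = Ψ := by
      ext p; exact (he p).symm
    simp only
    rw [h1]
  exact (Set.countable_range _).mono h

/-- There are continuum many semirecursive sets which are not c.e. and pairwise not equivalent. -/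
theorem exists_continuum (r : Set (Set (ℕ × ℕ))) (hr : ∀ Ψ ∈ r, IsOp Ψ) :
    ∃ S : Set (Set ℕ), #S = 𝔠 ∧ (∀ B ∈ S, Semirecursive B ∧ ¬ REPred fun n => n ∈ B) ∧
      ∀ B ∈ S, ∀ C ∈ S, B ≠ C → ¬ Eqv r B C := by
  let P : Set (Set (Set ℕ)) := {S | (∀ B ∈ S, Semirecursive B ∧ ¬ REPred fun n => n ∈ B) ∧
    S.Pairwise fun B C => ¬ Eqv r B C}
  obtain ⟨S, hS⟩ := zorn_subset P (by
    intro c hc hch
    refine ⟨⋃₀ c, ⟨?_, ?_⟩, fun s hs => Set.subset_sUnion_of_mem hs⟩
    · rintro B ⟨s, hs, hB⟩
      exact (hc hs).1 B hB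
    · exact (Set.pairwise_sUnion hch.directedOn).2 fun s hs => (hc hs).2)
  have hS1 := hS.prop
  refine ⟨S, le_antisymm ?_ ?_, hS1.1, fun B hB C hC hne => hS1.2 hB hC hne⟩
  · refine (mk_set_le S).trans ?_
    rw [mk_set, mk_nat]
    exact two_power_aleph0.le
  · have hsub : cut '' Set.Ioi 0 ⊆ {W : Set ℕ | REPred fun x => x ∈ W} ∪
        ⋃ B ∈ S, ({C : Set ℕ | Red r C B} ∪ {B}) := by
      rintro _ ⟨x, -, rfl⟩
      by_cases hre : REPred fun n => n ∈ cut x
      · exact Or.inl hre
      · right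
        by_contra hcon
        have hno : ∀ B ∈ S, ¬ Eqv r (cut x) B := fun B hB h =>
          hcon (Set.mem_iUnion₂.2 ⟨B, hB, Or.inl h.1⟩)
        have hnS : cut x ∉ S := fun h =>
          hcon (Set.mem_iUnion₂.2 ⟨cut x, h, Or.inr rfl⟩)
        have h1 : insert (cut x) S ∈ P := by
          refine ⟨?_, ?_⟩
          · intro B hB
            rcases Set.mem_insert_iff.1 hB with rfl | hB
            · exact ⟨cut_semirecursive x, hre⟩
            · exact hS1.1 B hB
          · refine hS1.2.insert fun B hB _ => ⟨hno B hB, fun h => hno B hB ⟨h.2, h.1⟩⟩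
        exact hnS (hS.le_of_ge h1 (Set.subset_insert _ _) (Set.mem_insert _ _))
    have hc : ∀ B : Set ℕ, ({C : Set ℕ | Red r C B} ∪ {B}).Countable := fun B =>
      (countable_red r hr B).union (Set.countable_singleton B)
    have h2 : #(⋃ B ∈ S, ({C : Set ℕ | Red r C B} ∪ {B}) : Set (Set ℕ)) ≤ #S * ℵ₀ := by
      refine (mk_biUnion_le _ S).trans ?_
      gcongr
      exact ciSup_le' fun B => (hc B.1).le_aleph0
    have h3 : 𝔠 ≤ ℵ₀ + #S * ℵ₀ := by
      calc 𝔠 = #(Set.Ioi (0 : ℝ)) := (mk_Ioi_real 0).symm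
        _ = #(cut '' Set.Ioi 0) := (mk_image_eq_of_injOn cut (Set.Ioi 0) cut_injOn).symm
        _ ≤ _ := mk_le_mk_of_subset hsub
        _ ≤ _ := mk_union_le _ _
        _ ≤ ℵ₀ + #S * ℵ₀ := add_le_add countable_re.le_aleph0 h2
    by_contra hlt
    have hlt := not_le.1 hlt
    have h4 : #S * ℵ₀ < 𝔠 := mul_lt_of_lt aleph0_le_continuum hlt aleph0_lt_continuum
    exact absurd h3 (not_le.2 (add_lt_of_lt aleph0_le_continuum aleph0_lt_continuum h4))

end Pool.Agent.Y626.CT
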